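import Pool.Agent.Run7.h985.TC.Stm

/-!
# TC / CNV: the converse
-/

set_option autoImplicit false
set_option linter.unusedSectionVars false
set_option linter.unusedSimpArgs false
set_option backward.isDefEq.respectTransparency false
set_option backward.defeqAttrib.useBackward true

open CategoryTheory Limits MonoidalCategory Pretriangulated Triangulated

namespace Run7.h354.TC

open Pool.Agent.Y116.MT Pool.Agent.V1178.MT Run7.h822.MT Run7.h985.TC

universe v u w

theorem t_CNV : S_CNV.{v, u, w} := by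
  intro C _ _ _ _ _ _ _ _ _ _ _ _ hid E _ R t h
  have ht : TensorCompat t := ⟨h.tensor_le, h.tensor_ge⟩
  have hu : Hrt t (𝟙_ C) := unit_hrt ht h.nondeg_le h.nondeg_ge
  have he : TExact t R := ⟨h.exact_le (), h.exact_ge ()⟩
  have hhrt : ∀ X : C, R.Deg X 0 → Hrt t X := fun X hX =>
    ⟨isLE_of_H ht he hu hid h.nondeg_le h.nondeg_ge fun i hi => hX i (by omega),
      isGE_of_H ht he hu hid h.nondeg_le h.nondeg_ge fun i hi => hX i (by omega)⟩
  refine ⟨⟨?_, ?_⟩, ?_⟩
  · intro X f hX hf
    exact faithful_heart ht he hu hid hu (hhrt X hX) f hf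
  · intro X n f hX hn
    have h1 := (hhrt X hX).2
    have h2 : t.IsGE (X⟦-n⟧) n := t.isGE_shift X 0 (-n) n (by omega)
    exact t.zero_of_isLE_of_isGE f 0 n hn hu.1 h2
  · intro P hP hgen X
    have hbase : ∀ (a : ℤ) (X : C), t.IsGE X a → t.IsLE X a → P X := by
      intro a X h1 h2
      have h3 : Hrt t (X⟦a⟧) := ⟨t.isLE_shift X a a 0, t.isGE_shift X a a 0⟩
      have h4 : P (X⟦a⟧) := hgen _ (he.deg h3)
      have h5 : P (X⟦a⟧⟦-a⟧) := hP.shift _ (-a) h4
      have e : X⟦a⟧⟦-a⟧ ≅ X := (shiftEquiv C a).unitIso.symm.app X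
      exact hP.retract e.inv e.hom e.inv_hom_id h5
    have hind : ∀ (n : ℕ) (a : ℤ) (X : C), t.IsGE X a → t.IsLE X (a + n) → P X := by
      intro n
      induction n with
      | zero =>
        intro a X h1 h2
        refine hbase a X h1 ?_
        simpa using h2
      | succ n ih =>
        intro a X h1 h2
        obtain ⟨A, B, hA, hB, f, g, d, hT⟩ := t.exists_triangle X a (a + 1) rfl
        have hA1 : t.IsLE A a := ⟨hA⟩
        have hB1 : t.IsGE B (a + 1) := ⟨hB⟩
        have hA2 : t.IsGE A a := isGE1 hT h1 (t.isGE_of_ge B (a - 1) (a + 1) (by omega))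
        have hB2 : t.IsLE B (a + 1 + n) := by
          have e : a + ((n + 1 : ℕ) : ℤ) = a + 1 + n := by push_cast; ring
          rw [e] at h2
          exact isLE3 hT (t.isLE_of_le A a (a + 1 + n + 1) (by omega)) h2
        exact hP.ext f g d hT (hbase a A hA2 hA1) (ih (a + 1) B hB1 hB2)
    obtain ⟨N, h1, h2⟩ := bounded_of_H ht he hu hid h.nondeg_le h.nondeg_ge X
    refine hind (2 * N) (-N) X h2 ?_
    have e : (-(N : ℤ) + ((2 * N : ℕ) : ℤ)) = N := by push_cast; ring
    rw [e]
    exact h1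

end Run7.h354.TC
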