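import Pool.Agent.Run7.h985.TC.Stm

/-!
# TC / CR1: Cramer's rule
-/

set_option autoImplicit false
set_option linter.unusedSectionVars false
set_option linter.unusedSimpArgs false
set_option backward.isDefEq.respectTransparency false
set_option backward.defeqAttrib.useBackward true

open CategoryTheory Limits MonoidalCategory Pretriangulated Triangulated

namespace Run7.h354.TC

open Pool.Agent.Y116.MT Pool.Agent.V1178.MT Run7.h822.MT Run7.h985.TC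

universe v u w

section Mon

variable {C : Type u} [Category.{v} C] [MonoidalCategory C] [SymmetricCategory C]

/-- Naturality of the exchange in all variables. -/
lemma exch_nat {W W' Z Z' P P' : C} (w : W ⟶ W') (a : Z ⟶ Z') (b : P ⟶ P') :
    ((w ⊗ₘ a) ⊗ₘ b) ≫ (exch W' Z' P').hom = (exch W Z P).hom ≫ ((w ⊗ₘ b) ⊗ₘ a) := by
  simp only [exch, Iso.trans_hom, whiskerLeftIso_hom, Iso.symm_hom, Category.assoc]
  rw [associator_naturality_assoc, ← MonoidalCategory.id_tensorHom, ← MonoidalCategory.id_tensorHom,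
    tensorHom_comp_tensorHom_assoc, BraidedCategory.braiding_naturality, Category.comp_id,
    ← associator_inv_naturality, tensorHom_comp_tensorHom_assoc, Category.id_comp]

/-- The power of a morphism. -/
def pwZ {M N : C} (f : M ⟶ N) : ∀ n : ℕ, pw (𝟙_ C) M n ⟶ pw (𝟙_ C) N n
  | 0 => 𝟙 _
  | n + 1 => pwZ f n ⊗ₘ f

lemma pwZ_mv {M N : C} (f : M ⟶ N) (n : ℕ) : ∀ i : Fin (n + 1),
    pwZ f (n + 1) ≫ mv (𝟙_ C) N n i = mv (𝟙_ C) M n i ≫ pwZ f (n + 1) := by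
  induction n with
  | zero =>
    intro i
    simp [mv]
  | succ n ih =>
    intro i
    refine Fin.lastCases ?_ (fun j => ?_) i
    · simp
    · rw [mv_castSucc, mv_castSucc]
      have h1 : pwZ f (n + 1 + 1) = ((pwZ f n ⊗ₘ f) ⊗ₘ f) := rfl
      have h2 : pwZ f (n + 1 + 1) ≫ (mv (𝟙_ C) N n j ▷ N) =
          (mv (𝟙_ C) M n j ▷ M) ≫ pwZ f (n + 1 + 1) := by
        have e : pwZ f (n + 1 + 1) = (pwZ f (n + 1) ⊗ₘ f) := rfl
        rw [e, ← MonoidalCategory.tensorHom_id, ← MonoidalCategory.tensorHom_id,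
          tensorHom_comp_tensorHom, tensorHom_comp_tensorHom, ih, Category.comp_id,
          Category.id_comp]
      rw [← Category.assoc, h2, Category.assoc, Category.assoc, h1, exch_nat]

end Mon

section

variable {C : Type u} [Category.{v} C] [Preadditive C] [HasZeroObject C] [HasShift C ℤ]
  [∀ n : ℤ, (shiftFunctor C n).Additive] [Pretriangulated C] [MonoidalCategory C]
  [SymmetricCategory C] [TensorTriangulated C] {E : Type w} [Field E] {R : Realisation C E}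

lemma pw_deg {N : C} (hN : R.Deg N 0) (n : ℕ) : R.Deg (pw (𝟙_ C) N n) 0 := by
  induction n with
  | zero => exact deg_unit
  | succ n ih =>
    have h := ih.tensor hN
    rwa [add_zero] at h

lemma kap_iso' {X Z : C} (h : ∀ n, R.Deg (pw X Z n) 0) (n : ℕ) : IsIso (kap R.H X Z n) := by
  induction n with
  | zero => simp only [kap]; infer_instance
  | succ n ih =>
    have h1 := (h n).isIso_mu Z
    simp only [kap]
    infer_instance

end

theorem t_CR1 : S_CR1.{v, u, w} := by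
  intro C _ _ _ _ _ _ _ _ _ _ _ E _ R hF M N hM hN f hf
  -- the alternating powers vanish
  have halt : ∀ n : ℕ, Module.finrank E (R.H.obj N) < n → alt (𝟙_ C) N n = 0 := by
    intro n hn
    apply hF.zero (pw_deg hN n) (pw_deg hN n)
    have h1 := kap_iso' (fun n => pw_deg hN n) n
    rw [← cancel_epi (kap R.H (𝟙_ C) N n), ← alt_lax, alt_vec_zero _ _ _ hn, zero_comp, comp_zero]
  have hex : ∃ n : ℕ, pwZ f n ≫ alt (𝟙_ C) N n = 0 :=
    ⟨Module.finrank E (R.H.obj N) + 1, by rw [halt _ (Nat.lt_succ_self _), comp_zero]⟩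
  classical
  obtain ⟨k, hk0, hkmin⟩ : ∃ k : ℕ, pwZ f k ≫ alt (𝟙_ C) N k = 0 ∧
      ∀ l < k, pwZ f l ≫ alt (𝟙_ C) N l ≠ 0 :=
    ⟨Nat.find hex, Nat.find_spec hex, fun l hl => Nat.find_min hex hl⟩
  rcases k with _ | r
  · exfalso
    have h1 : pwZ f 0 ≫ alt (𝟙_ C) N 0 = 𝟙 (𝟙_ C) := by
      simp [pwZ, alt]
    rw [h1] at hk0
    exact not_isZero_unit R ((IsZero.iff_id_eq_zero _).2 hk0)
  rcases r with _ | m
  · exfalso
    apply hf
    have h1 : pwZ f (0 + 1) ≫ alt (𝟙_ C) N (0 + 1) = (𝟙_ C) ◁ f := by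
      simp [pwZ, alt, mv]
    rw [h1] at hk0
    have h2 : f = (λ_ M).inv ≫ ((𝟙_ C) ◁ f) ≫ (λ_ N).hom := by simp
    rw [h2, hk0, zero_comp, comp_zero]
  have hg := hkmin (m + 1) (Nat.lt_succ_self _)
  set U : C := pw (𝟙_ C) M (m + 1) with hU
  set W : C := pw (𝟙_ C) N (m + 1) with hW
  let g : U ⟶ W := pwZ f (m + 1) ≫ alt (𝟙_ C) N (m + 1)
  let A : Fin (m + 1) → (U ⊗ N ⟶ W ⊗ M) := fun j =>
    (mv (𝟙_ C) M m j ▷ N) ≫ (exch (pw (𝟙_ C) M m) M N).hom ≫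
      (((pwZ f m ▷ N) ≫ alt (𝟙_ C) N (m + 1)) ▷ M)
  refine ⟨U, W, g, -∑ j : Fin (m + 1), ((-1 : ℤ) ^ (m + 1 + j.val)) • A j, pw_deg hM _,
    pw_deg hN _, hg, ?_⟩
  have hterm : ∀ j : Fin (m + 1), (pwZ f (m + 1) ⊗ₘ f) ≫ (mv (𝟙_ C) N m j ▷ N) ≫
      (exch (pw (𝟙_ C) N m) N N).hom ≫ (alt (𝟙_ C) N (m + 1) ▷ N) =
      (U ◁ f) ≫ A j ≫ (W ◁ f) := by
    intro j
    have e1 : (pwZ f (m + 1) ⊗ₘ f) = (U ◁ f) ≫ (pwZ f (m + 1) ▷ N) := by
      rw [MonoidalCategory.tensorHom_def']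
    have e2 : (pwZ f (m + 1) ▷ N) ≫ (mv (𝟙_ C) N m j ▷ N) =
        (mv (𝟙_ C) M m j ▷ N) ≫ (pwZ f (m + 1) ▷ N) := by
      rw [← comp_whiskerRight, pwZ_mv, comp_whiskerRight]
    have e3 : (pwZ f (m + 1) ▷ N) ≫ (exch (pw (𝟙_ C) N m) N N).hom =
        (exch (pw (𝟙_ C) M m) M N).hom ≫ ((pwZ f m ▷ N) ▷ M) ≫ (W ◁ f) := by
      have h1 := exch_nat (pwZ f m) f (𝟙 N)
      rw [MonoidalCategory.tensorHom_id, MonoidalCategory.tensorHom_id,
        MonoidalCategory.tensorHom_def (pwZ f m ▷ N) f] at h1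
      exact h1
    have e4 : (W ◁ f) ≫ (alt (𝟙_ C) N (m + 1) ▷ N) = (alt (𝟙_ C) N (m + 1) ▷ M) ≫ (W ◁ f) :=
      whisker_exchange _ _
    calc (pwZ f (m + 1) ⊗ₘ f) ≫ (mv (𝟙_ C) N m j ▷ N) ≫
        (exch (pw (𝟙_ C) N m) N N).hom ≫ (alt (𝟙_ C) N (m + 1) ▷ N)
        = (U ◁ f) ≫ ((pwZ f (m + 1) ▷ N) ≫ (mv (𝟙_ C) N m j ▷ N)) ≫
          (exch (pw (𝟙_ C) N m) N N).hom ≫ (alt (𝟙_ C) N (m + 1) ▷ N) := by
          rw [e1]; simp only [Category.assoc]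
      _ = (U ◁ f) ≫ (mv (𝟙_ C) M m j ▷ N) ≫ ((pwZ f (m + 1) ▷ N) ≫
          (exch (pw (𝟙_ C) N m) N N).hom) ≫ (alt (𝟙_ C) N (m + 1) ▷ N) := by
          rw [e2]; simp only [Category.assoc]
      _ = (U ◁ f) ≫ (mv (𝟙_ C) M m j ▷ N) ≫ (exch (pw (𝟙_ C) M m) M N).hom ≫
          ((pwZ f m ▷ N) ▷ M) ≫ ((W ◁ f) ≫ (alt (𝟙_ C) N (m + 1) ▷ N)) := by
          rw [e3]; simp only [Category.assoc]
      _ = (U ◁ f) ≫ A j ≫ (W ◁ f) := by
          rw [e4]
          simp only [A, comp_whiskerRight, Category.assoc]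
  have hlast : (pwZ f (m + 1) ⊗ₘ f) ≫ (alt (𝟙_ C) N (m + 1) ▷ N) = (g ▷ M) ≫ (W ◁ f) := by
    rw [MonoidalCategory.tensorHom_def, Category.assoc, whisker_exchange, comp_whiskerRight,
      Category.assoc]
  have h0 : (∑ j : Fin (m + 1), ((-1 : ℤ) ^ (m + 1 + j.val)) • ((U ◁ f) ≫ A j ≫ (W ◁ f))) +
      (g ▷ M) ≫ (W ◁ f) = 0 := by
    have h1 : pwZ f (m + 1 + 1) ≫ alt (𝟙_ C) N (m + 1 + 1) = 0 := hk0
    have h2 : alt (𝟙_ C) N (m + 1 + 1) = ∑ i : Fin (m + 1 + 1),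
        ((-1 : ℤ) ^ (m + 1 + i.val)) • (mv (𝟙_ C) N (m + 1) i ≫ (alt (𝟙_ C) N (m + 1) ▷ N)) := rfl
    rw [h2, Fin.sum_univ_castSucc, Preadditive.comp_add, Preadditive.comp_sum, mv_last,
      Category.id_comp, Fin.val_last, Even.neg_one_pow ⟨m + 1, rfl⟩, one_zsmul] at h1
    rw [← hlast]
    refine Eq.trans ?_ h1
    congr 1
    refine Finset.sum_congr rfl fun j _ => ?_
    rw [← hterm j, Preadditive.comp_zsmul, mv_castSucc, Fin.val_castSucc, Category.assoc]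
    rfl
  rw [Preadditive.neg_comp, Preadditive.comp_neg, neg_eq_iff_add_eq_zero, Preadditive.sum_comp,
    Preadditive.comp_sum]
  refine Eq.trans ?_ h0
  congr 1
  refine Finset.sum_congr rfl fun j _ => ?_
  rw [Preadditive.zsmul_comp, Preadditive.comp_zsmul]

end Run7.h354.TC
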